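import Pool.Agent.Q216.Seb.Link

/-!
# MP_5ab447_lc: manipulability of the random `d`-ary single elimination bracket

Q1 is true: `α_{d,k} ≥ 227/420` for all `3 ≤ k ≤ d`.
-/

set_option autoImplicit false

namespace Pool.Agent.Results.MP_5ab447_lc.Manipulability

open Finset Pool.Agent.Q216.Seb

theorem K_eq (d : ℕ) : ∑ ρ : Fin 5 → Fin d, Nf d 5 ρ * VS ρ = K d := by
  rw [Finset.sum_congr rfl (fun ρ _ => VS_bits ρ),
    sum_five (fun a b c e f : Fin d => term d a.val b.val c.val e.val f.val)]
  unfold K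
  rw [← sum_loop]
  refine Finset.sum_congr rfl (fun a _ => ?_)
  rw [← sum_loop]
  refine Finset.sum_congr rfl (fun b _ => ?_)
  rw [← sum_loop]
  refine Finset.sum_congr rfl (fun c _ => ?_)
  rw [← sum_loop]
  refine Finset.sum_congr rfl (fun e _ => ?_)
  rw [← sum_loop]

theorem two_level (d k : ℕ) (hk : 3 ≤ k) (hd : 3 ≤ d)
    (hK : K d * 420 ≤ 193 * (d ^ 2 * (d ^ 2).descFactorial 5)) : (227 / 420 : ℝ) ≤ α d k := by
  have h5 := five_le hd
  have hg : (1 - (K d : ℝ) / ((d ^ 2 * (d ^ 2).descFactorial 5 : ℕ) : ℝ)) ∈ gains d k := by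
    refine ⟨2, TB (d ^ 2), TB' (d ^ 2), coal (d ^ 2), by norm_num, TB_tour _, TB'_tour _, ?_, adj, ?_⟩
    · rw [coal_card h5]; exact hk
    · rw [sum_T' d 2 h5 (by omega), sum_T d hd, K_eq]
  refine le_trans ?_ (le_α d k (by omega) hg)
  have hpos : (0 : ℝ) < ((d ^ 2 * (d ^ 2).descFactorial 5 : ℕ) : ℝ) := by
    have : 0 < (d ^ 2).descFactorial 5 := Nat.descFactorial_pos.2 h5
    positivity
  have h1 : (K d : ℝ) / ((d ^ 2 * (d ^ 2).descFactorial 5 : ℕ) : ℝ) ≤ 193 / 420 := by
    rw [div_le_div_iff₀ hpos (by norm_num)]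
    exact_mod_cast hK
  linarith

theorem one_level (d k : ℕ) (hk : 3 ≤ k) (hd : 7 ≤ d) : (227 / 420 : ℝ) ≤ α d k := by
  classical
  have hn : 5 ≤ d ^ 1 := by rw [pow_one]; omega
  have hfd : Nonempty (Fin d) := ⟨⟨0, by omega⟩⟩
  have hm0 := mark_nonempty d (by omega) 0
  have hT : ∑ x ∈ coal (d ^ 1), r d 1 (TB (d ^ 1)) x = 3 / (d : ℝ) := by
    rw [sum_r_eq, avg_prod]
    have key : ∀ σ : Leaf d 1 ≃ Fin (d ^ 1),
        avg (fun m : Mark d 1 => if win (TB (d ^ 1)) 1 σ m ∈ coal (d ^ 1) then (1 : ℝ) else 0) =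
          3 / (d : ℝ) := by
      intro σ
      let e : Fin d ≃ Fin (d ^ 1) := (Equiv.prodPUnit (Fin d)).symm.trans
        (show Fin d × Unit ≃ Fin (d ^ 1) from σ)
      have hwin : ∀ m : Mark d 1, win (TB (d ^ 1)) 1 σ m = e (mk1 m) := by
        intro m
        show champ (TB (d ^ 1)) (fun i => e i) (mk1 m) = e (mk1 m)
        apply champ_no
        rintro x ⟨_, hx⟩
        have hmem : ∀ y : Fin (d ^ 1), y ∈ Set.range (fun i => e i) := fun y => e.surjective y
        by_cases h4 : x.val = 4
        · have := hx ⟨2, by omega⟩ (hmem _) (by intro h; rw [← h] at h4; simp at h4)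
          unfold TB at this
          dsimp only at this
          omega
        · by_cases h2 : x.val < 2
          · have := hx ⟨4, by omega⟩ (hmem _) (by intro h; rw [← h] at h4; simp at h4)
            unfold TB at this
            dsimp only at this
            omega
          · have := hx ⟨0, by omega⟩ (hmem _) (by intro h; rw [← h] at h2; simp at h2)
            unfold TB at this
            dsimp only at this
            omega
      have e1 : avg (fun m : Mark d 1 => if win (TB (d ^ 1)) 1 σ m ∈ coal (d ^ 1) then (1 : ℝ) else 0) =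
          avg (fun m : Fin d × (Fin d → Mark d 0) => if e m.1 ∈ coal (d ^ 1) then (1 : ℝ) else 0) := by
        apply avg_congr
        intro m
        rw [hwin]
        rfl
      rw [e1, avg_prod]
      have e2 := avg_equiv e (fun t => if t ∈ coal (d ^ 1) then (1 : ℝ) else 0)
      have hne : Nonempty (Fin d → Mark d 0) := ⟨fun _ => ()⟩
      have e3 : avg (fun a : Fin d => avg (fun _ : Fin d → Mark d 0 =>
          if e a ∈ coal (d ^ 1) then (1 : ℝ) else 0)) =
          avg (fun a : Fin d => if e a ∈ coal (d ^ 1) then (1 : ℝ) else 0) := by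
        apply avg_congr
        intro a
        exact avg_const (A := Fin d → Mark d 0) _
      refine e3.trans (e2.trans ?_)
      unfold avg
      rw [Finset.sum_boole, Finset.filter_mem_eq_inter, Finset.univ_inter, coal_card hn,
        Fintype.card_fin, pow_one]
      norm_num
    rw [avg_congr key]
    have := leaf_equiv d 1
    exact avg_const _
  have hg : (1 - 3 / (d : ℝ)) ∈ gains d k := by
    refine ⟨1, TB (d ^ 1), TB' (d ^ 1), coal (d ^ 1), le_refl _, TB_tour _, TB'_tour _, ?_, adj, ?_⟩
    · rw [coal_card hn]; exact hk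
    · rw [sum_T' d 1 hn (by omega), hT]
  refine le_trans ?_ (le_α d k (by omega) hg)
  have h7 : (7 : ℝ) ≤ d := by exact_mod_cast hd
  have : 3 / (d : ℝ) ≤ 3 / 7 := div_le_div_of_nonneg_left (by norm_num) (by norm_num) h7
  linarith

/-- `α_{d,k}` is the least `a` such that `R d SEB` is `k`-SNM-`a`, and it is at least `227/420`
for all `3 ≤ k ≤ d`. -/
theorem result : ∀ k d : ℕ, 3 ≤ k → k ≤ d →
    IsLeast {a | IsSNM d k a} (α d k) ∧ (227 / 420 : ℝ) ≤ α d k := by
  intro k d hk hkd
  refine ⟨α_isLeast d k (by omega), ?_⟩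
  have hd : 3 ≤ d := by omega
  by_cases h7 : 7 ≤ d
  · exact one_level d k hk h7
  · apply two_level d k hk hd
    interval_cases d
    · have := K3
      simpa [Nat.descFactorial] using this
    · have := K4
      simpa [Nat.descFactorial] using this
    · have := K5
      simpa [Nat.descFactorial] using this
    · have := K6
      simpa [Nat.descFactorial] using this

end Pool.Agent.Results.MP_5ab447_lc.Manipulability
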